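import Mathlib

set_option autoImplicit false

open Subgroup

namespace Pool.Agent.Lib.Rel3

/-- The four standard relators `x^3`, `z^2`, `[x,y]`, `[z,t]` (`x, y, z, t` are the generators
`0, 1, 2, 3`). -/
def relator : Fin 4 → FreeGroup (Fin 4) :=
  ![FreeGroup.of 0 ^ 3, FreeGroup.of 2 ^ 2,
    FreeGroup.of 0 * FreeGroup.of 1 * (FreeGroup.of 0)⁻¹ * (FreeGroup.of 1)⁻¹,
    FreeGroup.of 2 * FreeGroup.of 3 * (FreeGroup.of 2)⁻¹ * (FreeGroup.of 3)⁻¹]

/-- The normal closure `R` of the four standard relators. -/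
def R : Subgroup (FreeGroup (Fin 4)) := normalClosure (Set.range relator)

/-- The exponent sum of the generator `i` in `g`. -/
def ex (i : Fin 4) (g : FreeGroup (Fin 4)) : ℤ :=
  Multiplicative.toAdd
    (FreeGroup.lift (fun j => Multiplicative.ofAdd (if j = i then (1 : ℤ) else 0)) g)

/-- The normal subgroup `K_s`: exponent sum of `x` divisible by `3` for `s = x^3`, exponent sum
of `z` even for `s = z^2`, no condition for `[x,y]` and `[z,t]`. -/
def K : Fin 4 → Set (FreeGroup (Fin 4)) :=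
  ![{g | 3 ∣ ex 0 g}, {g | 2 ∣ ex 2 g}, Set.univ, Set.univ]

/-- Powers attached to a standard relator `s`.
For `x^3`: cubes `u^3` in `R` with `u` not in `K_(x^3)`, and squares of elements of `R`.
For `z^2`: squares `u^2` in `R` with `u` not in `K_(z^2)`, and cubes of elements of `R`.
For `[x,y]`: squares `u^2` in `R` with `u` in `K_(z^2)`.
For `[z,t]`: cubes `u^3` in `R` with `u` in `K_(x^3)`. -/
def powers : Fin 4 → Set (FreeGroup (Fin 4)) :=
  ![{g | g ∈ R ∧ ∃ u, g = u ^ 3 ∧ ¬ 3 ∣ ex 0 u} ∪ {g | ∃ w ∈ R, g = w ^ 2},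
    {g | g ∈ R ∧ ∃ u, g = u ^ 2 ∧ ¬ 2 ∣ ex 2 u} ∪ {g | ∃ w ∈ R, g = w ^ 3},
    {g | g ∈ R ∧ ∃ u, g = u ^ 2 ∧ 2 ∣ ex 2 u},
    {g | g ∈ R ∧ ∃ u, g = u ^ 3 ∧ 3 ∣ ex 0 u}]

/-- For a standard relator `s` and a set `S` of standard relators: the normal closure of `S`, of
the powers attached to `s` and of all commutators `[a,w]` with `a` in `K_s` and `w` in `R`. -/
def N (s : Fin 4) (S : Set (Fin 4)) : Subgroup (FreeGroup (Fin 4)) :=
  normalClosure (relator '' S ∪ powers s ∪ {g | ∃ a ∈ K s, ∃ w ∈ R, g = a * w * a⁻¹ * w⁻¹})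

section aff

variable {k : Type} [Field k]

/-- The permutation `(u, v) ↦ (a u + f v, v + s)`. -/
def aff (a : kˣ) (f : k → k) (s : k) : Equiv.Perm (k × k) where
  toFun p := ((a : k) * p.1 + f p.2, p.2 + s)
  invFun p := (((a⁻¹ : kˣ) : k) * (p.1 - f (p.2 - s)), p.2 - s)
  left_inv p := by ext <;> simp
  right_inv p := by ext <;> simp

/-- Translation of the first coordinate. -/
def tr (c : k) : Equiv.Perm (k × k) := aff 1 (fun _ => c) 0

theorem aff_apply (a : kˣ) (f : k → k) (s : k) (p : k × k) :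
    aff a f s p = ((a : k) * p.1 + f p.2, p.2 + s) := rfl

theorem tr_apply (c : k) (p : k × k) : tr c p = (p.1 + c, p.2) := by
  simp [tr, aff_apply]

theorem tr_inj {c d : k} (h : tr c = tr d) : c = d := by
  have := congrArg (fun e => (e (0, 0)).1) h
  simpa [tr_apply] using this

theorem tr_add (c d : k) : tr (c + d) = tr c * tr d := by
  ext p <;> simp [tr_apply, Equiv.Perm.mul_apply]
  ring

theorem tr_zero : tr (0 : k) = 1 := by
  ext p <;> simp [tr_apply]

theorem tr_neg (c : k) : tr (-c) = (tr c)⁻¹ := by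
  rw [eq_inv_iff_mul_eq_one, ← tr_add]
  simp [tr_zero]

theorem tr_pow (c : k) (n : ℕ) : tr c ^ n = tr (n * c) := by
  induction n with
  | zero => simp [tr_zero]
  | succ n ih => rw [pow_succ, ih, ← tr_add]; congr 1; push_cast; ring

theorem aff_tr (a : kˣ) (f : k → k) (s c : k) :
    aff a f s * tr c = tr ((a : k) * c) * aff a f s := by
  ext p <;> simp [tr_apply, aff_apply, Equiv.Perm.mul_apply]
  ring

end aff

/-- A test over a field `k`: three permutation representations of the free group in which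
`R` acts by translations. -/
structure Test (k : Type) [Field k] where
  χ : FreeGroup (Fin 4) →* kˣ
  ρ : Fin 3 → FreeGroup (Fin 4) →* Equiv.Perm (k × k)
  conj : ∀ j g (c : k), ρ j g * tr c = tr ((χ g : k) * c) * ρ j g
  e : Fin 4 → (Fin 3 → k)
  he : ∀ m j, ρ j (relator m) = tr (e m j)

variable {k : Type} [Field k]

/-- Elements that act by translations whose vector lies in `W`. -/
def Test.Nt (T : Test k) (W : Submodule k (Fin 3 → k)) : Subgroup (FreeGroup (Fin 4)) where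
  carrier := {g | ∃ w ∈ W, ∀ j, T.ρ j g = tr (w j)}
  one_mem' := ⟨0, W.zero_mem, fun j => by simp [tr_zero]⟩
  mul_mem' := by
    rintro g h ⟨v, hv, hg⟩ ⟨w, hw, hh⟩
    exact ⟨v + w, W.add_mem hv hw, fun j => by rw [map_mul, hg, hh, Pi.add_apply, tr_add]⟩
  inv_mem' := by
    rintro g ⟨v, hv, hg⟩
    exact ⟨-v, W.neg_mem hv, fun j => by rw [map_inv, hg, Pi.neg_apply, tr_neg]⟩

theorem Test.Nt_normal (T : Test k) (W : Submodule k (Fin 3 → k)) : (T.Nt W).Normal := by
  refine ⟨fun n hn g => ?_⟩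
  obtain ⟨v, hv, hg⟩ := hn
  refine ⟨(T.χ g : k) • v, W.smul_mem _ hv, fun j => ?_⟩
  rw [map_mul, map_mul, hg, T.conj, Pi.smul_apply, smul_eq_mul, map_inv, mul_inv_cancel_right]

theorem Test.relator_mem (T : Test k) (W : Submodule k (Fin 3 → k)) (m : Fin 4)
    (h : T.e m ∈ W) : relator m ∈ T.Nt W := ⟨T.e m, h, T.he m⟩

theorem Test.of_relator_mem (T : Test k) (W : Submodule k (Fin 3 → k)) (m : Fin 4)
    (h : relator m ∈ T.Nt W) : T.e m ∈ W := by
  obtain ⟨w, hw, h⟩ := h
  have : T.e m = w := by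
    funext j
    exact tr_inj ((T.he m j).symm.trans (h j))
  rwa [this]

theorem Test.R_le (T : Test k) : R ≤ T.Nt ⊤ := by
  have := T.Nt_normal ⊤
  refine normalClosure_le_normal ?_
  rintro _ ⟨m, rfl⟩
  exact T.relator_mem ⊤ m trivial

/-- A power `u^m` in `R` acts trivially if the character of `u` is not `1`. -/
theorem Test.pow_bot (T : Test k) (u : FreeGroup (Fin 4)) (m : ℕ) (hu : u ^ m ∈ R)
    (hχ : (T.χ u : k) ≠ 1) (j : Fin 3) : T.ρ j (u ^ m) = 1 := by
  obtain ⟨v, -, hv⟩ := T.R_le hu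
  have h1 := T.conj j u (v j)
  rw [← hv j, map_pow, ← pow_succ', pow_succ, ← map_pow, hv j] at h1
  have h2 : tr (v j) = tr ((T.χ u : k) * v j) := mul_right_cancel h1
  have h3 := tr_inj h2
  have h4 : (1 - (T.χ u : k)) * v j = 0 := by linear_combination h3
  rcases mul_eq_zero.1 h4 with h5 | h5
  · exact absurd (sub_eq_zero.1 h5).symm hχ
  · rw [hv j, h5, tr_zero]

/-- `m`-th powers of elements of `R` act trivially if `m = 0` in `k`. -/
theorem Test.pow_R (T : Test k) (w : FreeGroup (Fin 4)) (m : ℕ) (hw : w ∈ R)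
    (hm : (m : k) = 0) (j : Fin 3) : T.ρ j (w ^ m) = 1 := by
  obtain ⟨v, -, hv⟩ := T.R_le hw
  rw [map_pow, hv, tr_pow, hm, zero_mul, tr_zero]

theorem Test.N_le (T : Test k) (s : Fin 4) (hp : ∀ g ∈ powers s, ∀ j, T.ρ j g = 1)
    (hK : ∀ a ∈ K s, T.χ a = 1) (S : Set (Fin 4))
    (W : Submodule k (Fin 3 → k)) (hS : ∀ m ∈ S, T.e m ∈ W) :
    N s S ≤ T.Nt W := by
  have := T.Nt_normal W
  refine normalClosure_le_normal ?_
  rintro g ((⟨m, hm, rfl⟩ | hg) | ⟨a, ha, w, hw, rfl⟩)
  · exact T.relator_mem W m (hS m hm)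
  · exact ⟨0, W.zero_mem, fun j => by rw [hp g hg j, Pi.zero_apply, tr_zero]⟩
  · obtain ⟨v, -, hv⟩ := T.R_le hw
    refine ⟨0, W.zero_mem, fun j => ?_⟩
    rw [map_mul, map_mul, map_mul, map_inv, map_inv, hv, T.conj, hK a ha,
      mul_inv_cancel_right, Units.val_one, one_mul, mul_inv_cancel]
    simp [tr_zero]

/-- If `r 0, r 1, r 2` generate `R` as a normal subgroup modulo `R^6[R,R]`, `6 = 0` in `k` and the
test vectors of the relators span, then at most `dim W` of the `r i` have their vector in `W`. -/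
theorem Test.core (T : Test k) (h6 : (6 : k) = 0)
    (hT : Submodule.span k (Set.range T.e) = ⊤)
    (r : Fin 3 → FreeGroup (Fin 4))
    (hr : normalClosure (Set.range r ∪ {a | ∃ b ∈ R, a = b ^ 6} ∪
      {a | ∃ b ∈ R, ∃ c ∈ R, a = b * c * b⁻¹ * c⁻¹}) = R)
    (W : Submodule k (Fin 3 → k)) (I : Finset (Fin 3)) (hI : ∀ i ∈ I, r i ∈ T.Nt W) :
    I.card ≤ Module.finrank k W := by
  classical
  have hrR : ∀ i, r i ∈ R := fun i => hr.le (subset_normalClosure (Or.inl (Or.inl ⟨i, rfl⟩)))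
  choose v hv0 hv using fun i => T.R_le (hrR i)
  have hvS : ∀ i ∈ I, v i ∈ W := by
    intro i hi
    obtain ⟨w, hw, hw2⟩ := hI i hi
    have : v i = w := by
      funext j
      exact tr_inj ((hv i j).symm.trans (hw2 j))
    rwa [this]
  set WC : Submodule k (Fin 3 → k) :=
    Submodule.span k ((Finset.image v (Finset.univ \ I) : Finset (Fin 3 → k)) :
      Set (Fin 3 → k)) with hWC
  have hdimC : Module.finrank k WC ≤ 3 - I.card := by
    refine (finrank_span_finset_le_card _).trans ?_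
    refine Finset.card_image_le.trans ?_
    rw [Finset.card_sdiff_of_subset (Finset.subset_univ _)]
    simp
  have hall : ∀ i, v i ∈ W ⊔ WC := by
    intro i
    by_cases hi : i ∈ I
    · exact Submodule.mem_sup_left (hvS i hi)
    · refine Submodule.mem_sup_right (Submodule.subset_span ?_)
      simp only [Finset.coe_image, Set.mem_image]
      exact ⟨i, by simpa using hi, rfl⟩
  have hR : R ≤ T.Nt (W ⊔ WC) := by
    have := T.Nt_normal (W ⊔ WC)
    refine hr.symm.le.trans (normalClosure_le_normal ?_)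
    rintro _ ((⟨i, rfl⟩ | ⟨b, hb, rfl⟩) | ⟨b, hb, c, hc, rfl⟩)
    · exact ⟨v i, hall i, hv i⟩
    · refine ⟨0, Submodule.zero_mem _, fun j => ?_⟩
      rw [T.pow_R b 6 hb (by exact_mod_cast h6) j, Pi.zero_apply, tr_zero]
    · obtain ⟨x, -, hx⟩ := T.R_le hb
      obtain ⟨y, -, hy⟩ := T.R_le hc
      refine ⟨0, Submodule.zero_mem _, fun j => ?_⟩
      rw [map_mul, map_mul, map_mul, map_inv, map_inv, hx, hy, ← tr_add, add_comm, tr_add,
        mul_inv_cancel_right, mul_inv_cancel, Pi.zero_apply, tr_zero]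
  have htop : W ⊔ WC = ⊤ := by
    rw [eq_top_iff, ← hT, Submodule.span_le]
    rintro _ ⟨m, rfl⟩
    exact T.of_relator_mem _ m (hR (subset_normalClosure ⟨m, rfl⟩))
  have h3 : Module.finrank k (W ⊔ WC : Submodule k (Fin 3 → k)) = 3 := by
    rw [htop, finrank_top]; simp
  have hle := Submodule.finrank_add_le_finrank_add_finrank W WC
  have hIc : I.card ≤ 3 := by simpa using Finset.card_le_univ I
  omega

theorem Test.main (T : Test k) (s : Fin 4) (hp : ∀ g ∈ powers s, ∀ j, T.ρ j g = 1)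
    (hK : ∀ a ∈ K s, T.χ a = 1) (hs : T.e s = 0)
    (h6 : (6 : k) = 0)
    (hT : Submodule.span k (Set.range T.e) = ⊤) (r : Fin 3 → FreeGroup (Fin 4))
    (hr : normalClosure (Set.range r ∪ {a | ∃ b ∈ R, a = b ^ 6} ∪
      {a | ∃ b ∈ R, ∃ c ∈ R, a = b * c * b⁻¹ * c⁻¹}) = R) (S : Finset (Fin 4)) (hsS : s ∈ S) :
    {i : Fin 3 | r i ∈ N s (S : Set (Fin 4))}.ncard < S.card := by
  classical
  set WS : Submodule k (Fin 3 → k) :=
    Submodule.span k ((Finset.image T.e (S.erase s) : Finset (Fin 3 → k)) : Set (Fin 3 → k))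
    with hWS
  have hSm : ∀ m ∈ (S : Set (Fin 4)), T.e m ∈ WS := by
    intro m hm
    by_cases hms : m = s
    · rw [hms, hs]; exact WS.zero_mem
    · refine Submodule.subset_span ?_
      simp only [Finset.coe_image, Set.mem_image]
      exact ⟨m, Finset.mem_coe.2 (Finset.mem_erase.2 ⟨hms, Finset.mem_coe.1 hm⟩), rfl⟩
  have hdimS : Module.finrank k WS ≤ S.card - 1 := by
    refine (finrank_span_finset_le_card _).trans ?_
    refine Finset.card_image_le.trans ?_
    rw [Finset.card_erase_of_mem hsS]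
  set I : Finset (Fin 3) := Finset.univ.filter
    (fun i => r i ∈ N s (S : Set (Fin 4))) with hI
  have hIn : {i : Fin 3 | r i ∈ N s (S : Set (Fin 4))}.ncard = I.card := by
    rw [← Set.ncard_coe_finset]
    congr 1
    ext i
    simp [hI]
  rw [hIn]
  have hc := T.core h6 hT r hr WS I (fun i hi =>
    T.N_le s hp hK _ WS hSm (by simpa [hI] using hi))
  have hSc : 1 ≤ S.card := Finset.card_pos.2 ⟨s, hsS⟩
  omega

end Pool.Agent.Lib.Rel3
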