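import Mathlib
import Pool.Agent.Lib.Rel3.Basic

set_option autoImplicit false

open Subgroup

namespace Pool.Agent.Lib.Rel3

variable {k : Type} [Field k]

theorem aff_mul (a a' : kˣ) (f f' : k → k) (s s' : k) :
    aff a f s * aff a' f' s' = aff (a * a') (fun v => a * f' v + f (v + s')) (s' + s) := by
  ext p
  · simp [aff_apply, Equiv.Perm.mul_apply]; ring
  · simp [aff_apply, Equiv.Perm.mul_apply]; ring

theorem aff_inv (a : kˣ) (f : k → k) (s : k) :
    (aff a f s)⁻¹ = aff a⁻¹ (fun v => -(((a⁻¹ : kˣ) : k) * f (v - s))) (-s) := by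
  rw [inv_eq_iff_mul_eq_one, aff_mul]
  ext p
  · simp [aff_apply, ← sub_eq_add_neg]
  · simp [aff_apply]

theorem aff_eq_tr (a : kˣ) (f : k → k) (s c : k) (ha : a = 1) (hf : ∀ v, f v = c)
    (hs : s = 0) : aff a f s = tr c := by
  subst ha hs
  have : f = fun _ => c := funext hf
  rw [this]; rfl

theorem aff_congr {a : kˣ} {f f' : k → k} {s s' : k} (hf : ∀ v, f v = f' v) (hs : s = s') :
    aff a f s = aff a f' s' := by
  have : f = f' := funext hf
  rw [this, hs]

/-- A test from explicit affine-type permutations. -/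
def Test.ofAff (c : Fin 4 → kˣ) (f : Fin 3 → Fin 4 → k → k) (s : Fin 3 → Fin 4 → k)
    (e : Fin 4 → (Fin 3 → k))
    (he : ∀ m j, FreeGroup.lift (fun i => aff (c i) (f j i) (s j i)) (relator m) = tr (e m j)) :
    Test k where
  χ := FreeGroup.lift c
  ρ j := FreeGroup.lift (fun i => aff (c i) (f j i) (s j i))
  conj := by
    intro j g
    induction g using FreeGroup.induction_on with
    | C1 => intro d; simp
    | of i => intro d; simp only [FreeGroup.lift_apply_of]; exact aff_tr _ _ _ _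
    | inv_of i ih =>
      intro d
      have h := ih (((FreeGroup.lift c (FreeGroup.of i))⁻¹ : kˣ) * d)
      rw [← mul_assoc, Units.mul_inv, one_mul] at h
      rw [map_inv, map_inv, inv_mul_eq_iff_eq_mul, ← mul_assoc, h, mul_inv_cancel_right]
    | mul g h ihg ihh =>
      intro d
      rw [map_mul, mul_assoc, ihh, ← mul_assoc, ihg, mul_assoc, ← mul_assoc ((_ : kˣ) : k)]
      congr 2
      rw [map_mul]
      push_cast
      ring
  e := e
  he := he

/-- Characteristic 2, kills `x^3`. -/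
def test0 (ω : kˣ) (hω : (ω : k) ^ 2 + ω + 1 = 0) (h2 : (2 : k) = 0) : Test k :=
  Test.ofAff ![ω, 1, 1, 1]
    ![![fun _ => 0, fun _ => 1, fun _ => 0, fun _ => 0],
      ![fun _ => 0, fun _ => 0, fun v => v, fun _ => 0],
      ![fun _ => 0, fun _ => 0, fun v => v, fun _ => 0]]
    ![![0, 0, 0, 0], ![0, 0, 1, 0], ![0, 0, 0, 1]]
    ![![0, 0, 0], ![0, 1, 0], ![(ω : k) - 1, 0, 0], ![0, 0, 1]]
    (by
      have h3 : ω * ω * ω = 1 := by
        ext; push_cast; linear_combination ((ω : k) - 1) * hω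
      intro m j
      fin_cases m <;> fin_cases j <;>
        simp only [relator, Fin.zero_eta, Fin.mk_one, Fin.reduceFinMk, Matrix.cons_val,
          Matrix.cons_val_zero, Matrix.cons_val_one, map_mul, map_inv,
          FreeGroup.lift_apply_of, pow_succ, pow_zero, one_mul, aff_inv, aff_mul] <;>
        refine aff_eq_tr _ _ _ _ ?_ (fun v => ?_) ?_
      all_goals try simp [h3]
      all_goals first | ring1 | linear_combination v * h2 | linear_combination h2)

/-- Characteristic 2, kills `[x,y]`. -/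
def test2 (h2 : (2 : k) = 0) : Test k :=
  Test.ofAff ![1, 1, 1, 1]
    ![![fun _ => 1, fun _ => 0, fun _ => 0, fun _ => 0],
      ![fun _ => 0, fun _ => 0, fun v => v, fun _ => 0],
      ![fun _ => 0, fun _ => 0, fun v => v, fun _ => 0]]
    ![![0, 0, 0, 0], ![0, 0, 1, 0], ![0, 0, 0, 1]]
    ![![1, 0, 0], ![0, 1, 0], ![0, 0, 0], ![0, 0, 1]]
    (by
      intro m j
      fin_cases m <;> fin_cases j <;>
        simp only [relator, Fin.zero_eta, Fin.mk_one, Fin.reduceFinMk, Matrix.cons_val,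
          Matrix.cons_val_zero, Matrix.cons_val_one, map_mul, map_inv,
          FreeGroup.lift_apply_of, pow_succ, pow_zero, one_mul, aff_inv, aff_mul] <;>
        refine aff_eq_tr _ _ _ _ ?_ (fun v => ?_) ?_
      all_goals try simp
      all_goals first | ring1 | linear_combination v * h2 | linear_combination h2)

/-- Characteristic 3, kills `z^2`. -/
def test1 (h3 : (3 : k) = 0) : Test k :=
  Test.ofAff ![1, 1, -1, 1]
    ![![fun _ => 0, fun _ => 0, fun _ => 0, fun _ => 1],
      ![fun v => -v ^ 2, fun _ => 0, fun _ => 0, fun _ => 0],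
      ![fun v => v, fun _ => 0, fun _ => 0, fun _ => 0]]
    ![![0, 0, 0, 0], ![1, 0, 0, 0], ![0, 1, 0, 0]]
    ![![0, 1, 0], ![0, 0, 0], ![0, 0, 1], ![1, 0, 0]]
    (by
      intro m j
      fin_cases m <;> fin_cases j <;>
        simp only [relator, Fin.zero_eta, Fin.mk_one, Fin.reduceFinMk, Matrix.cons_val,
          Matrix.cons_val_zero, Matrix.cons_val_one, map_mul, map_inv,
          FreeGroup.lift_apply_of, pow_succ, pow_zero, one_mul, aff_inv, aff_mul] <;>
        refine aff_eq_tr _ _ _ _ ?_ (fun v => ?_) ?_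
      all_goals try simp
      all_goals first
        | ring1
        | linear_combination v * h3
        | linear_combination h3
        | linear_combination -h3
        | linear_combination (-v ^ 2 - 2 * v - 2) * h3)

/-- Characteristic 3, kills `[z,t]`. -/
def test3 (h3 : (3 : k) = 0) : Test k :=
  Test.ofAff ![1, 1, 1, 1]
    ![![fun _ => 0, fun _ => 0, fun _ => 1, fun _ => 0],
      ![fun v => -v ^ 2, fun _ => 0, fun _ => 0, fun _ => 0],
      ![fun v => v, fun _ => 0, fun _ => 0, fun _ => 0]]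
    ![![0, 0, 0, 0], ![1, 0, 0, 0], ![0, 1, 0, 0]]
    ![![0, 1, 0], ![2, 0, 0], ![0, 0, 1], ![0, 0, 0]]
    (by
      intro m j
      fin_cases m <;> fin_cases j <;>
        simp only [relator, Fin.zero_eta, Fin.mk_one, Fin.reduceFinMk, Matrix.cons_val,
          Matrix.cons_val_zero, Matrix.cons_val_one, map_mul, map_inv,
          FreeGroup.lift_apply_of, pow_succ, pow_zero, one_mul, aff_inv, aff_mul] <;>
        refine aff_eq_tr _ _ _ _ ?_ (fun v => ?_) ?_
      all_goals try simp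
      all_goals first
        | ring1
        | linear_combination v * h3
        | linear_combination h3
        | linear_combination -h3
        | linear_combination (-v ^ 2 - 2 * v - 2) * h3)

/-! ### Exponent sums -/

theorem ex_one (i : Fin 4) : ex i 1 = 0 := by simp [ex]

theorem ex_mul (i : Fin 4) (g h : FreeGroup (Fin 4)) : ex i (g * h) = ex i g + ex i h := by
  simp [ex]

theorem ex_inv (i : Fin 4) (g : FreeGroup (Fin 4)) : ex i g⁻¹ = -ex i g := by
  simp [ex]

theorem ex_of (i j : Fin 4) : ex i (FreeGroup.of j) = if j = i then 1 else 0 := by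
  simp [ex]

theorem lift_zpow (c : Fin 4 → kˣ) (i : Fin 4) (ω : kˣ) (hi : c i = ω)
    (hc : ∀ j, j ≠ i → c j = 1) (g : FreeGroup (Fin 4)) :
    FreeGroup.lift c g = ω ^ ex i g := by
  induction g using FreeGroup.induction_on with
  | C1 => simp [ex_one]
  | of j =>
    rw [FreeGroup.lift_apply_of, ex_of]
    by_cases h : j = i
    · rw [h, hi]; simp
    · rw [hc j h, if_neg h, zpow_zero]
  | inv_of j ih => rw [map_inv, ih, ex_inv, zpow_neg]
  | mul g h ihg ihh => rw [map_mul, ihg, ihh, ex_mul, zpow_add]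

theorem form0 (g : Fin 4 → Equiv.Perm (k × k)) (hg : ∀ l, ∃ c, g l = tr c)
    (u : FreeGroup (Fin 4)) : ∃ c, FreeGroup.lift g u = tr c := by
  induction u using FreeGroup.induction_on with
  | C1 => exact ⟨0, by simp [tr_zero]⟩
  | of j => simpa using hg j
  | inv_of j ih => obtain ⟨c, hc⟩ := ih; exact ⟨-c, by rw [map_inv, hc, tr_neg]⟩
  | mul u v ihu ihv =>
    obtain ⟨c, hc⟩ := ihu
    obtain ⟨d, hd⟩ := ihv
    exact ⟨c + d, by rw [map_mul, hc, hd, tr_add]⟩

theorem form1 (g : Fin 4 → Equiv.Perm (k × k)) (i : Fin 4)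
    (hg : ∀ l, ∃ f, g l = aff 1 f (if l = i then 1 else 0))
    (u : FreeGroup (Fin 4)) : ∃ f, FreeGroup.lift g u = aff 1 f (ex i u : k) := by
  induction u using FreeGroup.induction_on with
  | C1 =>
    refine ⟨fun _ => 0, ?_⟩
    rw [map_one, ex_one, Int.cast_zero]
    exact (tr_zero (k := k)).symm
  | of j =>
    obtain ⟨f, hf⟩ := hg j
    refine ⟨f, ?_⟩
    rw [FreeGroup.lift_apply_of, hf, ex_of]
    by_cases h : j = i <;> simp [h]
  | inv_of j ih =>
    obtain ⟨f, hf⟩ := ih
    rw [map_inv, hf, aff_inv, ex_inv, Int.cast_neg, inv_one]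
    exact ⟨_, rfl⟩
  | mul u v ihu ihv =>
    obtain ⟨f, hf⟩ := ihu
    obtain ⟨f', hf'⟩ := ihv
    rw [map_mul, hf, hf', aff_mul, ex_mul, Int.cast_add, one_mul, add_comm (ex i v : k)]
    exact ⟨_, rfl⟩

theorem form2 (g : Fin 4 → Equiv.Perm (k × k)) (i : Fin 4)
    (hg : ∀ l, ∃ c m, g l = aff 1 (fun v => (if l = i then 1 else 0) * v + c) m)
    (u : FreeGroup (Fin 4)) :
    ∃ c m, FreeGroup.lift g u = aff 1 (fun v => (ex i u : k) * v + c) m := by
  induction u using FreeGroup.induction_on with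
  | C1 =>
    refine ⟨0, 0, ?_⟩
    rw [map_one, ex_one, Int.cast_zero]
    exact ((aff_eq_tr 1 _ 0 0 rfl (fun v => by simp) rfl).trans tr_zero).symm
  | of j =>
    obtain ⟨c, m, hf⟩ := hg j
    refine ⟨c, m, ?_⟩
    rw [FreeGroup.lift_apply_of, hf, ex_of]
    by_cases h : j = i <;> simp [h]
  | inv_of j ih =>
    obtain ⟨c, m, hf⟩ := ih
    refine ⟨(ex i (FreeGroup.of j) : k) * m - c, -m, ?_⟩
    rw [map_inv, hf, aff_inv, ex_inv, Int.cast_neg, inv_one]
    exact aff_congr (fun v => by rw [Units.val_one]; ring) rfl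
  | mul u v ihu ihv =>
    obtain ⟨c, m, hf⟩ := ihu
    obtain ⟨c', m', hf'⟩ := ihv
    refine ⟨c + c' + (ex i u : k) * m', m' + m, ?_⟩
    rw [map_mul, hf, hf', aff_mul, ex_mul, Int.cast_add, one_mul]
    exact aff_congr (fun v => by rw [Units.val_one]; ring) rfl

theorem sq_one (h2 : (2 : k) = 0) (f : k → k) : (aff (1 : kˣ) f 0) ^ 2 = 1 := by
  rw [pow_two, aff_mul, one_mul, add_zero, ← tr_zero]
  refine aff_eq_tr _ _ _ _ rfl (fun v => ?_) rfl
  rw [Units.val_one, add_zero]; linear_combination f v * h2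

theorem sq_one' (h2 : (2 : k) = 0) (c m : k) : (aff (1 : kˣ) (fun _ => c) m) ^ 2 = 1 := by
  rw [pow_two, aff_mul, one_mul, ← tr_zero]
  refine aff_eq_tr _ _ _ _ rfl (fun v => ?_) (by linear_combination m * h2)
  rw [Units.val_one]; linear_combination c * h2

theorem cube_one (h3 : (3 : k) = 0) (f : k → k) : (aff (1 : kˣ) f 0) ^ 3 = 1 := by
  rw [pow_succ, pow_two, aff_mul, aff_mul, ← tr_zero]
  refine aff_eq_tr _ _ _ _ (by simp) (fun v => ?_) (by simp)
  simp only [mul_one, Units.val_one, add_zero, one_mul]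
  linear_combination f v * h3

theorem cube_one' (h3 : (3 : k) = 0) (c m : k) : (aff (1 : kˣ) (fun _ => c) m) ^ 3 = 1 := by
  rw [pow_succ, pow_two, aff_mul, aff_mul, ← tr_zero]
  refine aff_eq_tr _ _ _ _ (by simp) (fun v => ?_) (by linear_combination m * h3)
  simp only [mul_one, Units.val_one, one_mul]
  linear_combination c * h3

/-- In `test2` (characteristic 2) squares of elements with even exponent sum of `z` act
trivially. -/
theorem test2_sq (h2 : (2 : k) = 0) (u : FreeGroup (Fin 4)) (hu : (2 : ℤ) ∣ ex 2 u)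
    (j : Fin 3) : (test2 h2).ρ j (u ^ 2) = 1 := by
  have h0 : (ex 2 u : k) = 0 := by
    obtain ⟨n, hn⟩ := hu
    rw [hn]; push_cast; rw [h2, zero_mul]
  rw [map_pow]
  fin_cases j
  · obtain ⟨c, hc⟩ := form0 (k := k) (fun i => aff ((![1, 1, 1, 1] : Fin 4 → kˣ) i)
      ((![fun _ => 1, fun _ => 0, fun _ => 0, fun _ => 0] : Fin 4 → k → k) i)
      ((![0, 0, 0, 0] : Fin 4 → k) i)) (fun l => by fin_cases l <;> exact ⟨_, rfl⟩) u
    have : (test2 h2).ρ 0 u = tr c := hc
    simp only [Fin.zero_eta]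
    rw [this, tr_pow]
    simp [h2, tr_zero]
  · obtain ⟨f, hf⟩ := form1 (k := k) (fun i => aff ((![1, 1, 1, 1] : Fin 4 → kˣ) i)
      ((![fun _ => 0, fun _ => 0, fun v => v, fun _ => 0] : Fin 4 → k → k) i)
      ((![0, 0, 1, 0] : Fin 4 → k) i)) 2 (fun l => by fin_cases l <;> exact ⟨_, rfl⟩) u
    have : (test2 h2).ρ 1 u = aff 1 f (ex 2 u : k) := hf
    simp only [Fin.mk_one]
    rw [this, h0, sq_one h2]
  · obtain ⟨c, m, hf⟩ := form2 (k := k) (fun i => aff ((![1, 1, 1, 1] : Fin 4 → kˣ) i)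
      ((![fun _ => 0, fun _ => 0, fun v => v, fun _ => 0] : Fin 4 → k → k) i)
      ((![0, 0, 0, 1] : Fin 4 → k) i)) 2
      (fun l => by
        fin_cases l
        · exact ⟨0, 0, aff_congr (fun v => by simp) rfl⟩
        · exact ⟨0, 0, aff_congr (fun v => by simp) rfl⟩
        · exact ⟨0, 0, aff_congr (fun v => by simp) rfl⟩
        · exact ⟨0, 1, aff_congr (fun v => by simp) rfl⟩) u
    have : (test2 h2).ρ 2 u = aff 1 (fun v => (ex 2 u : k) * v + c) m := hf
    simp only [Fin.reduceFinMk]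
    rw [this, h0, aff_congr (f' := fun _ => c) (fun v => by ring) rfl, sq_one' h2]

/-- In `test3` (characteristic 3) cubes of elements whose exponent sum of `x` is divisible by `3`
act trivially. -/
theorem test3_cube (h3 : (3 : k) = 0) (u : FreeGroup (Fin 4)) (hu : (3 : ℤ) ∣ ex 0 u)
    (j : Fin 3) : (test3 h3).ρ j (u ^ 3) = 1 := by
  have h0 : (ex 0 u : k) = 0 := by
    obtain ⟨n, hn⟩ := hu
    rw [hn]; push_cast; rw [h3, zero_mul]
  rw [map_pow]
  fin_cases j
  · obtain ⟨c, hc⟩ := form0 (k := k) (fun i => aff ((![1, 1, 1, 1] : Fin 4 → kˣ) i)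
      ((![fun _ => 0, fun _ => 0, fun _ => 1, fun _ => 0] : Fin 4 → k → k) i)
      ((![0, 0, 0, 0] : Fin 4 → k) i)) (fun l => by fin_cases l <;> exact ⟨_, rfl⟩) u
    have : (test3 h3).ρ 0 u = tr c := hc
    simp only [Fin.zero_eta]
    rw [this, tr_pow]
    simp [h3, tr_zero]
  · obtain ⟨f, hf⟩ := form1 (k := k) (fun i => aff ((![1, 1, 1, 1] : Fin 4 → kˣ) i)
      ((![fun v => -v ^ 2, fun _ => 0, fun _ => 0, fun _ => 0] : Fin 4 → k → k) i)
      ((![1, 0, 0, 0] : Fin 4 → k) i)) 0 (fun l => by fin_cases l <;> exact ⟨_, rfl⟩) u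
    have : (test3 h3).ρ 1 u = aff 1 f (ex 0 u : k) := hf
    simp only [Fin.mk_one]
    rw [this, h0, cube_one h3]
  · obtain ⟨c, m, hf⟩ := form2 (k := k) (fun i => aff ((![1, 1, 1, 1] : Fin 4 → kˣ) i)
      ((![fun v => v, fun _ => 0, fun _ => 0, fun _ => 0] : Fin 4 → k → k) i)
      ((![0, 1, 0, 0] : Fin 4 → k) i)) 0
      (fun l => by
        fin_cases l
        · exact ⟨0, 0, aff_congr (fun v => by simp) rfl⟩
        · exact ⟨0, 1, aff_congr (fun v => by simp) rfl⟩
        · exact ⟨0, 0, aff_congr (fun v => by simp) rfl⟩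
        · exact ⟨0, 0, aff_congr (fun v => by simp) rfl⟩) u
    have : (test3 h3).ρ 2 u = aff 1 (fun v => (ex 0 u : k) * v + c) m := hf
    simp only [Fin.reduceFinMk]
    rw [this, h0, aff_congr (f' := fun _ => c) (fun v => by ring) rfl, cube_one' h3]

end Pool.Agent.Lib.Rel3
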